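import Mathlib
import Pool.Agent.H368Z.HopfMain

open scoped ContDiff
open Pool.Agent.H368Z.Hopf

namespace Pool.Agent.Results.MP_4ba699_an.Counterexample

/-- For every `n = k + 1 ≥ 2` and every `1 ≤ m ≤ n` there are smooth `u, v` satisfying all the
hypotheses, the comparison condition and the gluing condition, with `u > v > 0` everywhere in `Ω`;
so neither `u ≡ v` nor `v ≡ 0` near the origin. -/
theorem result (k m : ℕ) (hk : 1 ≤ k) (hm : 1 ≤ m) (_hmn : m ≤ k + 1) :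
    ∃ u v : (Fin (k + 1) → ℝ) → ℝ, ContDiff ℝ ∞ u ∧ ContDiff ℝ ∞ v ∧
      (∀ t y, 0 < t → t < 1 → ∑ i, y i ^ 2 < 1 →
        0 < v (pt t y) ∧ v (pt t y) < u (pt t y) ∧ 0 < pd 0 u (pt t y)) ∧
      (∀ y, ∑ i, y i ^ 2 < 1 → u (pt 0 y) = v (pt 0 y)) ∧
      u 0 = 0 ∧ v 0 = 0 ∧ pd 0 u 0 = 0 ∧
      (∀ t s y, 0 ≤ t → t ≤ 1 → 0 < s → s < 1 → ∑ i, y i ^ 2 < 1 → u (pt t y) = v (pt s y) →
        sigma m u (pt t y) ≤ sigma m v (pt s y)) ∧
      ContDiff ℝ ∞ (fun x : Fin (k + 1) → ℝ =>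
        if 0 ≤ x 0 then v x else u (Function.update x 0 (-x 0))) := by
  obtain ⟨u, v, h1, h2, h3, h4, h5, h6⟩ := exists_good k m hk hm
  have h0 : (0 : Fin (k + 1) → ℝ) = pt 0 0 := by
    funext i; refine Fin.cases rfl (fun _ => rfl) i
  refine ⟨u, v, h1, h2, h3, fun y _ => by rw [(h4 y).1, (h4 y).2.1], ?_, ?_, ?_, h5, h6⟩
  · rw [h0]; exact (h4 0).1
  · rw [h0]; exact (h4 0).2.1
  · rw [h0]; exact (h4 0).2.2

end Pool.Agent.Results.MP_4ba699_an.Counterexample
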